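import Pool.Agent.H.MP_23085c_co.B

namespace Pool.Agent.Results.MP_23085c_co.No

open Pool.Agent.H.MP_23085c_co Finset Module

theorem result (d r : ℕ) (hd : 3 ≤ d) :
    ∃ (K : Set (Fin d → ℝ)) (𝒜 : Set (Set (Fin d → ℝ))),
      IsCompact K ∧ Convex ℝ K ∧ 𝒜.Finite ∧ (∀ A ∈ 𝒜, ∃ v, A = (fun x => x + v) '' K) ∧
      (∀ F : Finset (Set (Fin d → ℝ)), ↑F ⊆ 𝒜 → F.card = d →
        ¬ ∃ S : AffineSubspace ℝ (Fin d → ℝ), finrank ℝ S.direction = d - 2 ∧
          ∀ A ∈ F, (A ∩ S).Nonempty) ∧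
      (∀ F : Finset (Set (Fin d → ℝ)), ↑F ⊆ 𝒜 → F.card ≤ r →
        ∃ S : AffineSubspace ℝ (Fin d → ℝ), finrank ℝ S.direction = d - 1 ∧
          ∀ A ∈ F, (A ∩ S).Nonempty) ∧
      ¬ ∃ S : AffineSubspace ℝ (Fin d → ℝ), finrank ℝ S.direction = d - 1 ∧
          ∀ A ∈ 𝒜, (A ∩ S).Nonempty := by
  classical
  obtain ⟨m, rfl⟩ : ∃ m, d = m + 2 := ⟨d - 2, by omega⟩
  obtain ⟨C⟩ := exists_cfg (m := m) (n := r + 2) (by omega) (by omega)
  obtain ⟨x, h1, h2, h3⟩ := C.main (by omega)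
  set K := convexHull ℝ (Set.range x ∪ Set.range fun i => -x i) with hK
  let T : Ix m (r + 2) → Set (Fin (m + 2) → ℝ) := fun i => (fun y => y + C.v i) '' K
  have pre : ∀ F : Finset (Set (Fin (m + 2) → ℝ)), ↑F ⊆ Set.range T →
      ∃ S : Finset (Ix m (r + 2)), #S = #F ∧ S.image T = F := by
    intro F hF
    obtain ⟨S, -, h1, h2⟩ := Finset.exists_subset_injOn_image_eq_of_surjOn (f := T) Set.univ F
      (by simpa [Set.SurjOn] using hF)
    exact ⟨S, by rw [← h2, card_image_of_injOn h1], h2⟩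
  refine ⟨K, Set.range T, ((Set.finite_range _).union (Set.finite_range _)).isCompact_convexHull ℝ,
    convex_convexHull ℝ _, Set.finite_range _, by rintro _ ⟨i, rfl⟩; exact ⟨_, rfl⟩, ?_, ?_, ?_⟩
  · rintro F hF hc ⟨L, hL, hm⟩
    obtain ⟨S, hS, rfl⟩ := pre F hF
    have : ∀ i ∈ S, ∃ y, y - C.v i ∈ K ∧ y ∈ L := fun i hi => by
      obtain ⟨_, ⟨k, hk, rfl⟩, hy⟩ := hm _ (mem_image_of_mem T hi)
      exact ⟨_, by simpa using hk, hy⟩
    choose! y hy using this
    have hi : AffineIndependent ℝ fun i : S => y i := by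
      rw [affineIndependent_iff]
      intro s w hw0 hw e he
      let w' : Ix m (r + 2) → ℝ := fun i => if h : i ∈ S then (if ⟨i, h⟩ ∈ s then w ⟨i, h⟩ else 0)
        else 0
      have hw' : ∀ i : S, w' i = if i ∈ s then w i else 0 := fun i => dif_pos i.2
      have := h1 S (hS.trans hc) y (fun i hi => (hy i hi).1) w'
        (by rw [← sum_coe_sort]; simpa only [hw', sum_ite_mem, univ_inter] using hw0)
        (by
          rw [← sum_coe_sort]
          simpa only [hw', ite_smul, zero_smul, sum_ite_mem, univ_inter] using hw) e e.2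
      rwa [hw', if_pos he] at this
    have h4 := hi.card_le_finrank_succ
    have h5 : vectorSpan ℝ (Set.range fun i : S => y i) ≤ L.direction := by
      rw [AffineSubspace.direction_eq_vectorSpan]
      refine vectorSpan_mono ℝ ?_
      rintro _ ⟨i, rfl⟩
      exact (hy i i.2).2
    have h6 := Submodule.finrank_mono h5
    rw [Fintype.card_coe] at h4
    omega
  · intro F hF hc
    obtain ⟨S, hS, rfl⟩ := pre F hF
    obtain ⟨i, hi⟩ : ∃ i, some (Sum.inr i) ∉ S := by
      by_contra h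
      push Not at h
      have := card_le_card_of_injOn (s := univ) (t := S)
        (fun i : Fin (r + 2) => some (Sum.inr i)) (fun i _ => h i) (fun a _ b _ h => by simpa using h)
      simp at this
      omega
    obtain ⟨u, hu, hu2⟩ := h2 i
    refine ⟨(LinearMap.ker u).toAffineSubspace, ?_, ?_⟩
    · have := Module.Dual.finrank_ker_add_one_of_ne_zero hu
      rw [Submodule.toAffineSubspace_direction]
      simp only [finrank_fintype_fun_eq_card, Fintype.card_fin] at this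
      omega
    · intro A hA
      obtain ⟨j, hj, rfl⟩ := mem_image.1 hA
      obtain ⟨k, hk, hk2⟩ := hu2 j (by rintro rfl; exact hi hj)
      exact ⟨_, ⟨k, hk, rfl⟩, hk2⟩
  · rintro ⟨L, hL, hm⟩
    obtain ⟨u, hu, hu2⟩ := L.direction.exists_le_ker_of_lt_top (lt_top_iff_ne_top.2 fun h => by
      rw [h] at hL; simp at hL)
    obtain ⟨p, -, hp⟩ := hm _ ⟨none, rfl⟩
    refine hu (h3 u (u p) fun j => ?_)
    obtain ⟨_, ⟨k, hk, rfl⟩, hy⟩ := hm _ ⟨j, rfl⟩
    refine ⟨k, hk, ?_⟩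
    have := hu2 (AffineSubspace.vsub_mem_direction hy hp)
    rwa [LinearMap.mem_ker, vsub_eq_sub, map_sub, sub_eq_zero] at this

end Pool.Agent.Results.MP_23085c_co.No
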